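import Pool.Agent.Y680.WD.Far
import Pool.Agent.Results.MP_ae2185_co.WadeDisproof

/-!
Connected counterexamples to Wade's question of every independence number `a` at least five, of
arbitrarily large minimum degree, of every large order, with the two vertices at distance at
least `a - 1`.
-/

set_option autoImplicit false

namespace Pool.Agent.Results.MP_ae2185_co.FarAndLargeDegree

open SimpleGraph Pool.Agent.Y680.WD

/-- A graph is alpha-critical if deleting any one of its edges increases the independence
number. -/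
def AlphaCritical {V : Type} (G : SimpleGraph V) : Prop :=
  ∀ e ∈ G.edgeSet, G.indepNum < (G.deleteEdges {e}).indepNum

/-- A graph is strongly alpha-critical if it is alpha-critical and has no isolated vertices. -/
def StronglyAlphaCritical {V : Type} (G : SimpleGraph V) : Prop :=
  AlphaCritical G ∧ ∀ v : V, ∃ w : V, G.Adj v w

theorem good_base : Good WadeDisproof.G 5 (14 : Fin 15) (8 : Fin 15) where
  bound := WadeDisproof.indep_le
  att := ⟨{3, 4, 5, 6, 8}, WadeDisproof.indep_five, by decide⟩
  crit := by
    have key : ∀ u v : Fin 15, u < v → WadeDisproof.adjB u v = true →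
        ∃ S : Finset (Fin 15), S.card = 5 + 1 ∧ u ∈ S ∧ v ∈ S ∧
          ∀ p ∈ S, ∀ q ∈ S, WadeDisproof.G.Adj p q → (p = u ∧ q = v) ∨ (p = v ∧ q = u) := by
      intro u v huv hadj
      obtain ⟨p, hp, hpe⟩ := WadeDisproof.wit_all u v huv hadj
      obtain ⟨hc, hi⟩ := WadeDisproof.wit_ok p hp
      have hS : ∀ s ∈ p.2.2, ∀ t ∈ p.2.2, WadeDisproof.G.Adj s t →
          (s = u ∧ t = v) ∨ (s = v ∧ t = u) := by
        intro s hs t ht hst
        have h5 := hi s hs t ht hst.2
        rcases hpe with ⟨h3, h4⟩ | ⟨h3, h4⟩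
        · rw [h3, h4]; exact h5
        · rw [h3, h4]; exact h5.symm
      have hle : ¬ WadeDisproof.G.IsIndepSet (p.2.2 : Set (Fin 15)) := by
        intro h6
        have := WadeDisproof.indep_le _ h6
        omega
      refine ⟨p.2.2, hc, ?_, ?_, hS⟩
      · by_contra hu
        refine hle ((indep_iff _ _).2 fun s hs t ht hst => ?_)
        rcases hS s hs t ht hst with h7 | h7
        · exact hu (h7.1 ▸ hs)
        · exact hu (h7.2 ▸ ht)
      · by_contra hv
        refine hle ((indep_iff _ _).2 fun s hs t ht hst => ?_)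
        rcases hS s hs t ht hst with h7 | h7
        · exact hv (h7.2 ▸ ht)
        · exact hv (h7.1 ▸ hs)
    intro u v huv
    rcases lt_or_gt_of_ne huv.1 with h | h
    · exact key u v h huv.2
    · obtain ⟨S, h1, h2, h3, h4⟩ := key v u h huv.symm.2
      exact ⟨S, h1, h3, h2, fun p hp q hq hpq => (h4 p hp q hq hpq).symm⟩
  noiso := WadeDisproof.no_isolated
  conn := WadeDisproof.conn
  bad := by
    intro S hS hc
    by_contra hcon
    push Not at hcon
    have := WadeDisproof.indep_le_of_avoid S hS hcon.2 hcon.1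
    omega
  degx := ⟨4, 13, by decide, by decide, by decide⟩
  degy := ⟨0, 2, by decide, by decide, by decide⟩
  hxy := by decide

/-- the distances from the vertex `8` -/
def hB (v : Fin 15) : ℕ := [1, 3, 1, 2, 4, 3, 2, 3, 0, 2, 1, 3, 2, 4, 5].getD v.val 0

/-- two neighbours of each vertex -/
def nbA (v : Fin 15) : Fin 15 := [3, 3, 6, 0, 14, 7, 2, 1, 0, 2, 2, 1, 0, 5, 4].getD v.val 0

/-- two neighbours of each vertex -/
def nbB (v : Fin 15) : Fin 15 := [8, 4, 8, 1, 11, 11, 9, 5, 2, 6, 6, 4, 3, 7, 13].getD v.val 0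

theorem far_base : Far WadeDisproof.G (14 : Fin 15) (8 : Fin 15) 4 4 where
  ex := by
    have h1 : ∀ p : Fin 15, WadeDisproof.adjB 14 p = true → p = 4 ∨ p = 13 := by decide +kernel
    have h2 : ∀ p q : Fin 15, WadeDisproof.adjB p q = true → p ≠ 14 → q ≠ 14 →
        hB q ≤ hB p + 1 := by decide +kernel
    exact ⟨hB, 4, 13, by decide, by decide, by decide, fun p hp => h1 p hp.2, rfl,
      fun p q hpq => h2 p q hpq.2, le_refl 4, le_refl 4⟩
  deg := by
    have h1 : ∀ v : Fin 15, nbA v ≠ nbB v ∧ (v ≠ nbA v ∧ WadeDisproof.adjB v (nbA v) = true) ∧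
        (v ≠ nbB v ∧ WadeDisproof.adjB v (nbB v) = true) := by decide +kernel
    exact fun v => ⟨nbA v, nbB v, h1 v⟩

theorem has_all (k : ℕ) : ∃ (V : Type) (_ : Fintype V) (G : SimpleGraph V) (x y : V),
    Fintype.card V = 15 + 2 * k ∧ Good G (5 + k) x y ∧
    Far G x y (4 + 2 * (k / 2)) (4 + 2 * ((k + 1) / 2)) := by
  induction k with
  | zero => exact ⟨Fin 15, inferInstance, WadeDisproof.G, 14, 8, by simp, good_base, far_base⟩
  | succ k ih =>
    obtain ⟨V, _, G, x, y, hc, hG, hF⟩ := ih
    obtain ⟨u, h1, h2⟩ := far_step hG hF (by omega)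
    refine ⟨V ⊕ Bool, inferInstance, sub G u x, Sum.inl x, Sum.inl y, ?_, h1, ?_⟩
    · rw [Fintype.card_sum, Fintype.card_bool, hc]
      ring
    · have h3 : 4 + 2 * (k / 2) + 2 = 4 + 2 * ((k + 1 + 1) / 2) := by omega
      rwa [h3] at h2

/-- Wade's question has a negative answer in a strong form: for every `a` at least five, every
`t` at least one and every `n` at least `(2 * a + 3) * t + 2` there is a connected strongly
alpha-critical graph on `n` vertices with independence number `a` in which every vertex has
degree at least `2 * t`, and with two vertices at distance at least `a - 1` such that every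
maximum independent set contains one of them. -/
theorem result : ∀ a t n : ℕ, 5 ≤ a → 1 ≤ t → (2 * a + 3) * t + 2 ≤ n →
    ∃ G : SimpleGraph (Fin n), StronglyAlphaCritical G ∧ G.Connected ∧ G.indepNum = a ∧
      (∀ v : Fin n, 2 * t ≤ (G.neighborSet v).ncard) ∧
      ∃ x y : Fin n, a ≤ G.dist x y + 1 ∧
        ∀ S : Finset (Fin n), G.IsMaximumIndepSet S → x ∈ S ∨ y ∈ S := by
  intro a t n ha ht hn
  obtain ⟨k, rfl⟩ : ∃ k, a = 5 + k := ⟨a - 5, by omega⟩
  obtain ⟨r, rfl⟩ : ∃ r, n = (2 * (5 + k) + 3) * t + 2 + r :=
    ⟨n - ((2 * (5 + k) + 3) * t + 2), by omega⟩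
  obtain ⟨V, _, H, x, y, hc, hH, hF⟩ := has_all k
  classical
  obtain ⟨g, hgy, hgx, hg⟩ := far_lip (c := 5 + 2 * (k / 2)) hF hH.hxy (by omega) (by omega)
  have hxy := hH.hxy
  have hnadj : ¬ H.Adj y x := fun h => by
    have := hg y x h
    omega
  have hnadj2 : ∀ v, H.Adj y v → H.Adj v x → False := fun v h1 h2 => by
    have := hg y v h1
    have := hg v x h2
    omega
  obtain ⟨v0, _, _, hv0, _⟩ := hH.degx
  have hv0x : v0 ≠ x := hv0.ne.symm
  have hv0y : v0 ≠ y := by
    rintro rfl
    exact hnadj hv0.symm
  -- the weights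
  let m : V → ℕ := fun v => if v = x ∨ v = y then 1 else if v = v0 then t + r else t
  have hmx : m x = 1 := by simp [m]
  have hmy : m y = 1 := by simp [m]
  have hmt : ∀ v, v ≠ x → v ≠ y → t ≤ m v := by
    intro v h1 h2
    simp only [m, h1, h2, or_self, if_false]
    split_ifs <;> omega
  have hm1 : ∀ v, 1 ≤ m v := by
    intro v
    by_cases h1 : v = x
    · rw [h1, hmx]
    · by_cases h2 : v = y
      · rw [h2, hmy]
      · exact le_trans ht (hmt v h1 h2)
  have hsum : ∑ v, m v = (2 * (5 + k) + 3) * t + 2 + r := by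
    have h1 : ∀ v : V, m v + ((if v = x then t - 1 else 0) + (if v = y then t - 1 else 0)) =
        t + (if v = v0 then r else 0) := by
      intro v
      simp only [m]
      by_cases h1 : v = x
      · subst h1
        simp [hxy, hv0x.symm]
        omega
      · by_cases h2 : v = y
        · subst h2
          simp [h1, hv0y.symm]
          omega
        · by_cases h3 : v = v0
          · simp [h3, hv0x, hv0y]
          · simp [h1, h2, h3]
    have h2 : ∑ v, (m v + ((if v = x then t - 1 else 0) + (if v = y then t - 1 else 0))) =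
        ∑ v : V, (t + (if v = v0 then r else 0)) := Finset.sum_congr rfl fun v _ => h1 v
    rw [Finset.sum_add_distrib, Finset.sum_add_distrib, Finset.sum_add_distrib,
      Finset.sum_ite_eq', Finset.sum_ite_eq', Finset.sum_ite_eq', Finset.sum_const,
      Finset.card_univ, hc] at h2
    simp only [Finset.mem_univ, if_true, smul_eq_mul] at h2
    obtain ⟨t', rfl⟩ : ∃ t', t = t' + 1 := ⟨t - 1, by omega⟩
    simp only [Nat.add_sub_cancel] at h2
    nlinarith [h2]
  have hcard : Fintype.card (Σ v : V, Fin (m v)) = (2 * (5 + k) + 3) * t + 2 + r := by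
    rw [Fintype.card_sigma]
    simpa using hsum
  let e : (Σ v : V, Fin (m v)) ≃ Fin ((2 * (5 + k) + 3) * t + 2 + r) :=
    Fintype.equivFinOfCardEq hcard
  let f : Fin ((2 * (5 + k) + 3) * t + 2 + r) → V := fun i => (e.symm i).1
  have hfib : ∀ v, {i | f i = v}.ncard = m v := by
    intro v
    have h1 : {i | f i = v} = Set.range fun j : Fin (m v) => e ⟨v, j⟩ := by
      ext i
      constructor
      · intro h
        obtain ⟨s, rfl⟩ := e.surjective i
        obtain ⟨v', j⟩ := s
        have h3 : f (e ⟨v', j⟩) = v := h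
        have h2 : v' = v := by simpa [f] using h3
        subst h2
        exact ⟨j, rfl⟩
      · rintro ⟨j, rfl⟩
        show f (e ⟨v, j⟩) = v
        simp [f]
    have h2 : Function.Injective fun j : Fin (m v) => e ⟨v, j⟩ := by
      intro i j hij
      have := e.injective hij
      simpa using this
    rw [h1, ← Set.image_univ, Set.ncard_image_of_injective _ h2, Set.ncard_univ]
    simp
  have hfs : Function.Surjective f := fun v => ⟨e ⟨v, ⟨0, hm1 v⟩⟩, by simp [f]⟩
  have hone : ∀ z, m z = 1 → ∃ z', ∀ s, f s = z ↔ s = z' := by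
    intro z hz
    have h1 := hfib z
    rw [hz, Set.ncard_eq_one] at h1
    obtain ⟨z', hz'⟩ := h1
    refine ⟨z', fun s => ?_⟩
    have : s ∈ {i | f i = z} ↔ s ∈ ({z'} : Set _) := by rw [hz']
    simpa using this
  obtain ⟨x', hx'⟩ := hone x hmx
  obtain ⟨y', hy'⟩ := hone y hmy
  have hfx : f x' = x := (hx' x').2 rfl
  have hfy : f y' = y := (hy' y').2 rfl
  have h := good_blow hH hfs hx' hy'
  set G := blow H f with hG
  have hnum : G.indepNum = 5 + k := by
    apply le_antisymm
    · obtain ⟨S, hS⟩ := G.exists_isNIndepSet_indepNum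
      have h1 := h.bound _ hS.isIndepSet
      rw [hS.card_eq] at h1
      exact h1
    · obtain ⟨S, hS, hcS⟩ := h.att
      have h1 := hS.card_le_indepNum
      rw [hcS] at h1
      exact h1
  refine ⟨G, ⟨?_, h.noiso⟩, h.conn, hnum, ?_, x', y', ?_, ?_⟩
  · intro d hd
    induction d using Sym2.ind with
    | _ i j =>
      rw [SimpleGraph.mem_edgeSet] at hd
      obtain ⟨S, hcS, hiS, hjS, hS⟩ := h.crit _ _ hd
      have h1 : (G.deleteEdges {s(i, j)}).IsIndepSet (S : Set _) := by
        rw [indep_iff]
        intro p hp q hq hpq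
        rw [SimpleGraph.deleteEdges_adj] at hpq
        apply hpq.2
        rw [Set.mem_singleton_iff, Sym2.eq_iff]
        exact hS p hp q hq hpq.1
      have h4 := h1.card_le_indepNum
      rw [hcS] at h4
      omega
  · intro s
    obtain ⟨p, q, hpq, hp, hq⟩ := hF.deg (f s)
    have hdis : ∀ v w : V, v ≠ w → Disjoint {i | f i = v} {i | f i = w} := by
      intro v w hvw
      rw [Set.disjoint_left]
      intro i hi hi'
      exact hvw (hi.symm.trans hi')
    have hsub : ∀ v, H.Adj (f s) v → {i | f i = v} ⊆ G.neighborSet s := by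
      intro v hv i hi
      have hi' : f i = v := hi
      exact blow_of_adj (by rw [hi']; exact hv)
    have hun : ({i | f i = p} ∪ {i | f i = q}).ncard = m p + m q := by
      rw [Set.ncard_union_eq (hdis p q hpq) (Set.toFinite _) (Set.toFinite _), hfib, hfib]
    have hun' : {i | f i = p} ∪ {i | f i = q} ⊆ G.neighborSet s :=
      Set.union_subset (hsub p hp) (hsub q hq)
    by_cases h1 : f s = x
    · rw [h1] at hp hq
      have hpy : p ≠ y := fun e => hnadj (e ▸ hp.symm)
      have hqy : q ≠ y := fun e => hnadj (e ▸ hq.symm)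
      have h2 := hmt p hp.ne.symm hpy
      have h3 := hmt q hq.ne.symm hqy
      have h4 := Set.ncard_le_ncard hun' (Set.toFinite _)
      omega
    · by_cases h2 : f s = y
      · rw [h2] at hp hq
        have hpx : p ≠ x := fun e => hnadj (e ▸ hp)
        have hqx : q ≠ x := fun e => hnadj (e ▸ hq)
        have h2 := hmt p hpx hp.ne.symm
        have h3 := hmt q hqx hq.ne.symm
        have h4 := Set.ncard_le_ncard hun' (Set.toFinite _)
        omega
      · have h3 : t + 1 ≤ m p + m q := by
          by_cases h4 : p = x ∨ p = y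
          · have h5 : q ≠ x ∧ q ≠ y := by
              rcases h4 with rfl | rfl
              · refine ⟨hpq.symm, ?_⟩
                rintro rfl
                exact hnadj2 _ hq.symm hp
              · refine ⟨?_, hpq.symm⟩
                rintro rfl
                exact hnadj2 _ hp.symm hq
            have h6 := hmt q h5.1 h5.2
            have h7 := hm1 p
            omega
          · push Not at h4
            have h6 := hmt p h4.1 h4.2
            have h7 := hm1 q
            omega
        have h4 : ({i | f i = f s} \ {s}).ncard = m (f s) - 1 := by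
          rw [Set.ncard_sdiff_singleton_of_mem (by simp), hfib]
        have h5 : Disjoint ({i | f i = f s} \ {s}) ({i | f i = p} ∪ {i | f i = q}) := by
          rw [Set.disjoint_union_right]
          exact ⟨(hdis _ _ hp.ne).mono_left Set.sdiff_subset,
            (hdis _ _ hq.ne).mono_left Set.sdiff_subset⟩
        have h6 : (({i | f i = f s} \ {s}) ∪ ({i | f i = p} ∪ {i | f i = q})).ncard =
            m (f s) - 1 + (m p + m q) := by
          rw [Set.ncard_union_eq h5 (Set.toFinite _) (Set.toFinite _), h4, hun]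
        have h7 : ({i | f i = f s} \ {s}) ∪ ({i | f i = p} ∪ {i | f i = q}) ⊆
            G.neighborSet s := by
          refine Set.union_subset ?_ hun'
          intro i hi
          exact ⟨fun e => hi.2 e.symm, Or.inl hi.1.symm⟩
        have h8 := Set.ncard_le_ncard h7 (Set.toFinite _)
        have h9 := hmt (f s) h1 h2
        omega
  · have hlip : ∀ p q, G.Adj p q → g (f q) ≤ g (f p) + 1 := by
      rintro p q ⟨_, h1 | h1⟩
      · rw [h1]; omega
      · exact hg _ _ h1
    have h1 := lip_dist h.conn (g := g ∘ f) hlip x' y'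
    simp only [Function.comp, hfx, hfy, hgx, hgy] at h1
    omega
  · intro S hS
    have hcS : S.card = G.indepNum := by
      apply le_antisymm hS.isIndepSet.card_le_indepNum
      obtain ⟨T, hT⟩ := G.exists_isNIndepSet_indepNum
      rw [← hT.card_eq]
      exact hS.maximum _ hT.isIndepSet
    exact h.bad S hS.isIndepSet (hcS.trans hnum)

end Pool.Agent.Results.MP_ae2185_co.FarAndLargeDegree
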